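import Pool.Agent.H43.BZ.Stm
import Pool.Graph.R_seed8.Y767.PB.Zon

/-!
# The zonal formula on the unit sphere

The lemmas `peel`, `radial`, `half` are those of the library module `Y767.PB.Zon`.
-/

open MeasureTheory Metric Set Filter Topology
open scoped ENNReal RealInnerProductSpace

set_option autoImplicit false

namespace Pool.Agent.H236.BZ.Zon

open Pool.Agent.Y767.PB (cn cn_zero cn_norm_sq peel radial chp chp_meas chp_pos chp_nonpos half)

/-- the constant of the zonal formula -/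
noncomputable def ck (k : ℕ) : ℝ≥0∞ :=
  (k + 1 : ℕ) * volume (ball (0 : EuclideanSpace ℝ (Fin (k + 1))) 1)

/-- the zonal formula: `y ↦ (y₀, |y|)` -/
theorem zonal {k : ℕ} {F : ℝ → ℝ → ℝ≥0∞} (hF : Measurable (fun p : ℝ × ℝ => F p.1 p.2)) :
    ∫⁻ y : EuclideanSpace ℝ (Fin (k + 2)), F (y 0) ‖y‖ = ck k *
      ∫⁻ q in Ioi (0 : ℝ), ∫⁻ θ in Ioo 0 Real.pi, ENNReal.ofReal (q ^ (k + 1)) *
        (ENNReal.ofReal (Real.sin θ ^ k) * F (q * Real.cos θ) q) := by
  have hmeas : Measurable (fun y : EuclideanSpace ℝ (Fin (k + 1 + 1)) => F (y 0) ‖y‖) := by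
    have h1 : Measurable (fun y : EuclideanSpace ℝ (Fin (k + 1 + 1)) => ((y 0 : ℝ), ‖y‖)) := by
      fun_prop
    exact hF.comp h1
  have h0 := peel (m := k + 1) hmeas
  have h1 : ∀ s : ℝ, ∫⁻ z : EuclideanSpace ℝ (Fin (k + 1)), F ((cn s z) 0) ‖cn s z‖ = ck k *
      ∫⁻ ρ : ℝ, chp ρ * (ENNReal.ofReal (ρ ^ k) * F s (√(s ^ 2 + ρ ^ 2))) := by
    intro s
    have h2 : ∀ z : EuclideanSpace ℝ (Fin (k + 1)), F ((cn s z) 0) ‖cn s z‖ =
        (fun r : ℝ => F s (√(s ^ 2 + r ^ 2))) ‖z‖ := by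
      intro z
      rw [cn_zero]
      simp only
      congr 1
      rw [← cn_norm_sq, Real.sqrt_sq (norm_nonneg _)]
    simp_rw [h2]
    have hm : Measurable (fun r : ℝ => F s (√(s ^ 2 + r ^ 2))) :=
      hF.comp (measurable_const.prodMk (by fun_prop))
    have h3 := radial (k := k) hm
    refine h3.trans ?_
    unfold ck
    congr 1
    rw [← lintegral_indicator measurableSet_Ioi]
    apply lintegral_congr
    intro ρ
    by_cases hρ : 0 < ρ
    · rw [indicator_of_mem (show ρ ∈ Ioi (0:ℝ) from hρ), chp_pos hρ, one_mul]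
    · rw [indicator_of_notMem (show ρ ∉ Ioi (0:ℝ) from hρ), chp_nonpos (not_lt.1 hρ), zero_mul]
  have hm : Measurable (fun p : ℝ × ℝ => chp p.2 * (ENNReal.ofReal (p.2 ^ k) *
      F p.1 (√(p.1 ^ 2 + p.2 ^ 2)))) := by
    have a1 : Measurable (fun p : ℝ × ℝ => chp p.2) := chp_meas.comp measurable_snd
    have a2 : Measurable (fun p : ℝ × ℝ => F p.1 (√(p.1 ^ 2 + p.2 ^ 2))) :=
      hF.comp (measurable_fst.prodMk (by fun_prop : Measurable fun p : ℝ × ℝ => √(p.1 ^ 2 + p.2 ^ 2)))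
    exact a1.mul ((by fun_prop : Measurable fun p : ℝ × ℝ => ENNReal.ofReal (p.2 ^ k)).mul a2)
  rw [h0, lintegral_congr h1, lintegral_const_mul]
  swap
  · exact hm.lintegral_prod_right'
  congr 1
  have e1 := lintegral_prod (μ := (volume : Measure ℝ)) (ν := (volume : Measure ℝ)) _ hm.aemeasurable
  simp only at e1
  rw [← e1]
  change ∫⁻ p : ℝ × ℝ, _ = _
  rw [← lintegral_comp_polarCoord_symm]
  have e2 : (polarCoord.target : Set (ℝ × ℝ)) = Ioi 0 ×ˢ Ioo (-Real.pi) Real.pi := rfl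
  rw [e2]
  have e3 : ∀ p ∈ (Ioi (0:ℝ) ×ˢ Ioo (-Real.pi) Real.pi : Set (ℝ × ℝ)),
      ENNReal.ofReal p.1 • (fun p : ℝ × ℝ => chp p.2 * (ENNReal.ofReal (p.2 ^ k) *
      F p.1 (√(p.1 ^ 2 + p.2 ^ 2)))) (polarCoord.symm p) =
      ENNReal.ofReal (p.1 ^ (k + 1)) * (chp (Real.sin p.2) * (ENNReal.ofReal
        (Real.sin p.2 ^ k) * F (p.1 * Real.cos p.2) p.1)) := by
    rintro ⟨q, θ⟩ ⟨hq, hθ⟩
    simp only [mem_Ioi] at hq
    simp only [polarCoord_symm_apply]
    have a1 : (q * Real.cos θ) ^ 2 + (q * Real.sin θ) ^ 2 = q ^ 2 := by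
      have := Real.sin_sq_add_cos_sq θ
      calc (q * Real.cos θ) ^ 2 + (q * Real.sin θ) ^ 2
          = q ^ 2 * (Real.sin θ ^ 2 + Real.cos θ ^ 2) := by ring
        _ = q ^ 2 := by rw [this, mul_one]
    rw [a1, Real.sqrt_sq hq.le]
    by_cases hs : 0 < Real.sin θ
    · rw [chp_pos (mul_pos hq hs), chp_pos hs, one_mul, one_mul, smul_eq_mul, mul_pow,
        ENNReal.ofReal_mul (by positivity : 0 ≤ q ^ k), pow_succ q k,
        ENNReal.ofReal_mul (by positivity : 0 ≤ q ^ k)]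
      ring
    · push Not at hs
      rw [chp_nonpos (mul_nonpos_of_nonneg_of_nonpos hq.le hs), chp_nonpos hs]
      simp
  rw [setLIntegral_congr_fun (measurableSet_Ioi.prod measurableSet_Ioo) e3]
  have e4 : (volume : Measure (ℝ × ℝ)).restrict (Ioi 0 ×ˢ Ioo (-Real.pi) Real.pi) =
      (volume.restrict (Ioi 0)).prod (volume.restrict (Ioo (-Real.pi) Real.pi)) := by
    rw [Measure.prod_restrict]; rfl
  have hm3 : Measurable (fun p : ℝ × ℝ => ENNReal.ofReal (p.1 ^ (k + 1)) * (chp (Real.sin p.2) *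
      (ENNReal.ofReal (Real.sin p.2 ^ k) * F (p.1 * Real.cos p.2) p.1))) := by
    have a1 : Measurable (fun p : ℝ × ℝ => chp (Real.sin p.2)) := chp_meas.comp (by fun_prop)
    have a2 : Measurable (fun p : ℝ × ℝ => F (p.1 * Real.cos p.2) p.1) :=
      hF.comp (Measurable.prodMk (by fun_prop) measurable_fst)
    have a3 : Measurable (fun p : ℝ × ℝ => ENNReal.ofReal (Real.sin p.2 ^ k)) := by fun_prop
    have a4 : Measurable (fun p : ℝ × ℝ => ENNReal.ofReal (p.1 ^ (k + 1))) := by fun_prop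
    exact a4.mul (a1.mul (a3.mul a2))
  rw [e4, lintegral_prod _ hm3.aemeasurable]
  apply lintegral_congr
  intro q
  simp only
  rw [lintegral_const_mul', lintegral_const_mul']
  · rw [half]
  · exact ENNReal.ofReal_ne_top
  · exact ENNReal.ofReal_ne_top

/-- invariance: the same for `y ↦ (⟨x, y⟩, |y|)`, `|x| = 1` -/
theorem zonal' {k : ℕ} (x : EuclideanSpace ℝ (Fin (k + 2))) (hx : ‖x‖ = 1) {F : ℝ → ℝ → ℝ≥0∞}
    (hF : Measurable (fun p : ℝ × ℝ => F p.1 p.2)) :
    ∫⁻ y : EuclideanSpace ℝ (Fin (k + 2)), F (inner ℝ x y) ‖y‖ = ck k *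
      ∫⁻ q in Ioi (0 : ℝ), ∫⁻ θ in Ioo 0 Real.pi, ENNReal.ofReal (q ^ (k + 1)) *
        (ENNReal.ofReal (Real.sin θ ^ k) * F (q * Real.cos θ) q) := by
  obtain ⟨L, hL⟩ : ∃ L : EuclideanSpace ℝ (Fin (k + 2)) ≃ₗᵢ[ℝ] EuclideanSpace ℝ (Fin (k + 2)),
      L x = EuclideanSpace.single (0 : Fin (k + 2)) (1 : ℝ) := by
    refine ⟨(ℝ ∙ (x - EuclideanSpace.single (0 : Fin (k + 2)) (1 : ℝ)))ᗮ.reflection, ?_⟩
    apply Submodule.reflection_sub
    rw [hx]
    simp
  have h1 : ∀ y : EuclideanSpace ℝ (Fin (k + 2)), (inner ℝ x y : ℝ) = (L y) 0 := by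
    intro y
    rw [← L.inner_map_map x y, hL, EuclideanSpace.inner_single_left]
    simp
  have h2 := zonal (k := k) (F := F) hF
  rw [← h2]
  have hmeas : Measurable (fun y : EuclideanSpace ℝ (Fin (k + 2)) => F (y 0) ‖y‖) := by
    have h1 : Measurable (fun y : EuclideanSpace ℝ (Fin (k + 2)) => ((y 0 : ℝ), ‖y‖)) := by fun_prop
    exact hF.comp h1
  have h3 := (L.measurePreserving).lintegral_comp hmeas
  rw [← h3]
  apply lintegral_congr
  intro y
  rw [h1, L.norm_map]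

/-- polar coordinates, the integrand a product -/
theorem polar {k : ℕ} {E : Type} [NormedAddCommGroup E] [InnerProductSpace ℝ E]
    [FiniteDimensional ℝ E] [MeasurableSpace E] [BorelSpace E] (hd : Module.finrank ℝ E = k + 2)
    (e : E) {g h : ℝ → ℝ≥0∞} (hg : Measurable g)
    (hh : Measurable h) :
    ∫⁻ y : E, g ‖y‖ * h (inner ℝ e y / ‖y‖) =
      (∫⁻ σ : sphere (0 : E) 1, h (inner ℝ e (σ : E)) ∂(volume : Measure E).toSphere) *
      ∫⁻ r in Ioi (0 : ℝ), ENNReal.ofReal (r ^ (k + 1)) * g r := by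
  have : Nontrivial E := Module.nontrivial_of_finrank_pos (R := ℝ) (by omega)
  have e1 : ∫⁻ z : E, g ‖z‖ * h (inner ℝ e z / ‖z‖) =
      ∫⁻ z : ({(0 : E)}ᶜ : Set E), g ‖z.1‖ * h (inner ℝ e z.1 / ‖z.1‖)
        ∂((volume : Measure E).comap (↑)) := by
    rw [lintegral_subtype_comap (measurableSet_singleton _).compl
      (fun z : E => g ‖z‖ * h (inner ℝ e z / ‖z‖)), restrict_compl_singleton]
  rw [e1]
  have e2 := (volume : Measure E).measurePreserving_homeomorphUnitSphereProd.lintegral_comp_emb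
    (Homeomorph.measurableEmbedding _)
    (fun p : sphere (0 : E) 1 × Ioi (0 : ℝ) => g p.2.1 * h (inner ℝ e p.1.1))
  have e3 : ∀ z : ({(0 : E)}ᶜ : Set E), g ‖z.1‖ * h (inner ℝ e z.1 / ‖z.1‖) =
      (fun p : sphere (0 : E) 1 × Ioi (0 : ℝ) => g p.2.1 * h (inner ℝ e p.1.1))
        (homeomorphUnitSphereProd E z) := by
    intro z
    simp only [homeomorphUnitSphereProd_apply_snd_coe, homeomorphUnitSphereProd_apply_fst_coe]
    rw [inner_smul_right, div_eq_inv_mul]
  rw [lintegral_congr e3]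
  rw [e2]
  have hm : Measurable (fun x : Ioi (0 : ℝ) => g x.1) := hg.comp measurable_subtype_coe
  have hm1 : Measurable (fun x : sphere (0 : E) 1 => h (inner ℝ e x.1)) :=
    hh.comp (by fun_prop)
  have hm2 : Measurable (fun b : sphere (0 : E) 1 × Ioi (0 : ℝ) => g b.2.1 * h (inner ℝ e b.1.1)) :=
    (hm.comp measurable_snd).mul (hm1.comp measurable_fst)
  rw [lintegral_prod _ hm2.aemeasurable]
  simp only
  have e4 : ∀ x : sphere (0 : E) 1, ∫⁻ y : Ioi (0 : ℝ), g y.1 * h (inner ℝ e x.1)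
      ∂Measure.volumeIoiPow (Module.finrank ℝ E - 1) = h (inner ℝ e x.1) *
      ∫⁻ y : Ioi (0 : ℝ), g y.1 ∂Measure.volumeIoiPow (Module.finrank ℝ E - 1) := by
    intro x
    rw [lintegral_mul_const _ hm, mul_comm]
  rw [lintegral_congr e4, lintegral_mul_const _ hm1]
  congr 1
  rw [hd]
  simp only [show k + 2 - 1 = k + 1 from rfl]
  unfold Measure.volumeIoiPow
  rw [lintegral_withDensity_eq_lintegral_mul _ (by fun_prop) hm]
  have := lintegral_subtype_comap (μ := (volume : Measure ℝ)) measurableSet_Ioi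
    (fun r : ℝ => ENNReal.ofReal (r ^ (k + 1)) * g r) (s := Ioi (0 : ℝ))
  rw [← this]
  rfl

/-- substitution `x = cos θ` -/
theorem subst (k : ℕ) (h : ℝ → ℝ≥0∞) :
    ∫⁻ θ in Ioo 0 Real.pi, ENNReal.ofReal (Real.sin θ ^ k) * h (Real.cos θ) =
      ∫⁻ x in Ioo (-1 : ℝ) 1,
        ENNReal.ofReal ((1 - x ^ 2) ^ ((((k + 2 : ℕ) : ℝ) - 3) / 2)) * h x := by
  have him : Real.cos '' Ioo 0 Real.pi = Ioo (-1 : ℝ) 1 := by
    ext x
    constructor
    · rintro ⟨θ, ⟨h1, h2⟩, rfl⟩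
      constructor
      · rw [← Real.cos_pi]
        exact Real.strictAntiOn_cos ⟨h1.le, h2.le⟩ ⟨Real.pi_pos.le, le_rfl⟩ h2
      · rw [← Real.cos_zero]
        exact Real.strictAntiOn_cos ⟨le_rfl, Real.pi_pos.le⟩ ⟨h1.le, h2.le⟩ h1
    · rintro ⟨h1, h2⟩
      refine ⟨Real.arccos x, ⟨Real.arccos_pos.2 h2, ?_⟩, Real.cos_arccos h1.le h2.le⟩
      refine lt_of_le_of_ne (Real.arccos_le_pi x) fun h => ?_
      have := Real.cos_arccos h1.le h2.le
      rw [h, Real.cos_pi] at this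
      linarith
  have h := lintegral_image_eq_lintegral_abs_deriv_mul (s := Ioo 0 Real.pi) (f := Real.cos)
    (f' := fun θ => - Real.sin θ) measurableSet_Ioo
    (fun θ _ => (Real.hasDerivAt_cos θ).hasDerivWithinAt)
    (Real.strictAntiOn_cos.injOn.mono Ioo_subset_Icc_self)
    (fun x => ENNReal.ofReal ((1 - x ^ 2) ^ ((((k + 2 : ℕ) : ℝ) - 3) / 2)) * h x)
  rw [him] at h
  rw [h]
  apply setLIntegral_congr_fun measurableSet_Ioo
  intro θ hθ
  have hs : 0 < Real.sin θ := Real.sin_pos_of_mem_Ioo hθ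
  simp only
  rw [← mul_assoc, ← ENNReal.ofReal_mul (abs_nonneg _)]
  congr 2
  rw [abs_neg, abs_of_pos hs]
  have e1 : 1 - Real.cos θ ^ 2 = Real.sin θ ^ (2 : ℝ) := by
    rw [Real.rpow_two]
    have := Real.sin_sq_add_cos_sq θ
    linarith
  rw [e1, ← Real.rpow_mul hs.le]
  have e2 : (2 : ℝ) * ((((k + 2 : ℕ) : ℝ) - 3) / 2) = (k : ℝ) - 1 := by
    push_cast
    ring
  rw [e2, Real.rpow_sub_one hs.ne', Real.rpow_natCast]
  field_simp

/-- **The zonal formula.** -/
theorem ZON : Pool.Agent.H43.BZ.S_ZON := by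
  intro d hd
  obtain ⟨k, rfl⟩ : ∃ k, d = k + 2 := ⟨d - 2, by omega⟩
  refine ⟨ck k, ?_, ?_, ?_⟩
  · unfold ck
    apply mul_ne_zero
    · exact_mod_cast Nat.succ_ne_zero k
    · exact (measure_ball_pos _ _ one_pos).ne'
  · unfold ck
    exact ENNReal.mul_ne_top (ENNReal.natCast_ne_top _) measure_ball_lt_top.ne
  · intro e he h hh
    set g : ℝ → ℝ≥0∞ := (Iio (1 : ℝ)).indicator (fun _ => 1) with hg
    have hgm : Measurable g := measurable_const.indicator measurableSet_Iio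
    have h1 := polar (k := k) (E := EuclideanSpace ℝ (Fin (k + 2))) (by simp) e hgm hh
    have hF : Measurable (fun p : ℝ × ℝ => (fun a r => g r * h (a / r)) p.1 p.2) :=
      (hgm.comp measurable_snd).mul (hh.comp (measurable_fst.div measurable_snd))
    have h2 := zonal' (k := k) e he (F := fun a r => g r * h (a / r)) hF
    rw [h1] at h2
    set G : ℝ≥0∞ := ∫⁻ r in Ioi (0 : ℝ), ENNReal.ofReal (r ^ (k + 1)) * g r with hG
    have h3 : ∫⁻ q in Ioi (0 : ℝ), ∫⁻ θ in Ioo 0 Real.pi, ENNReal.ofReal (q ^ (k + 1)) *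
        (ENNReal.ofReal (Real.sin θ ^ k) * (g q * h (q * Real.cos θ / q))) =
        G * ∫⁻ θ in Ioo 0 Real.pi, ENNReal.ofReal (Real.sin θ ^ k) * h (Real.cos θ) := by
      rw [hG, ← lintegral_mul_const]
      · apply setLIntegral_congr_fun measurableSet_Ioi
        intro q hq
        simp only
        rw [← lintegral_const_mul']
        · apply lintegral_congr
          intro θ
          rw [mul_div_cancel_left₀ _ (ne_of_gt (show (0 : ℝ) < q from hq))]
          ring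
        · apply ENNReal.mul_ne_top ENNReal.ofReal_ne_top
          rw [hg]
          by_cases h5 : q ∈ Iio (1 : ℝ)
          · rw [indicator_of_mem h5]; exact ENNReal.one_ne_top
          · rw [indicator_of_notMem h5]; exact ENNReal.zero_ne_top
      · exact (by fun_prop : Measurable fun r : ℝ => ENNReal.ofReal (r ^ (k + 1))).mul hgm
    rw [h3, subst] at h2
    have hG0 : G ≠ 0 := by
      have h5 : ∫⁻ r in Ioo (1 / 2 : ℝ) 1, ENNReal.ofReal ((1 / 2) ^ (k + 1)) ≤ G := by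
        rw [hG]
        calc ∫⁻ r in Ioo (1 / 2 : ℝ) 1, ENNReal.ofReal ((1 / 2) ^ (k + 1))
            ≤ ∫⁻ r in Ioo (1 / 2 : ℝ) 1, ENNReal.ofReal (r ^ (k + 1)) * g r := by
              apply setLIntegral_mono' measurableSet_Ioo
              intro r hr
              rw [hg, indicator_of_mem (show r ∈ Iio (1 : ℝ) from hr.2), mul_one]
              exact ENNReal.ofReal_le_ofReal (pow_le_pow_left₀ (by norm_num) hr.1.le _)
          _ ≤ _ := lintegral_mono_set fun r hr => lt_trans (by norm_num) hr.1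
      intro h6
      rw [h6, setLIntegral_const, nonpos_iff_eq_zero, mul_eq_zero] at h5
      rcases h5 with h5 | h5
      · rw [ENNReal.ofReal_eq_zero] at h5
        have : (0 : ℝ) < (1 / 2) ^ (k + 1) := by positivity
        linarith
      · rw [Real.volume_Ioo, ENNReal.ofReal_eq_zero] at h5
        norm_num at h5
    have hG1 : G ≠ ∞ := by
      have h5 : G ≤ ∫⁻ r in Ioo (0 : ℝ) 1, 1 := by
        rw [hG, ← lintegral_indicator measurableSet_Ioi, ← lintegral_indicator measurableSet_Ioo]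
        apply lintegral_mono
        intro r
        by_cases h6 : r ∈ Ioi (0 : ℝ)
        · rw [indicator_of_mem h6, hg]
          by_cases h7 : r ∈ Iio (1 : ℝ)
          · rw [indicator_of_mem h7, indicator_of_mem (show r ∈ Ioo (0 : ℝ) 1 from ⟨h6, h7⟩),
              mul_one, ← ENNReal.ofReal_one]
            exact ENNReal.ofReal_le_ofReal (pow_le_one₀ (le_of_lt h6) (le_of_lt h7))
          · rw [indicator_of_notMem h7, mul_zero]
            exact bot_le
        · rw [indicator_of_notMem h6]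
          exact bot_le
      rw [setLIntegral_const, Real.volume_Ioo] at h5
      exact ne_top_of_le_ne_top (ENNReal.mul_ne_top ENNReal.one_ne_top ENNReal.ofReal_ne_top) h5
    have h7 : (∫⁻ σ : Pool.Agent.H43.BZ.S (k + 2), h ⟪e, (σ : Pool.Agent.H43.BZ.E (k + 2))⟫
        ∂Pool.Agent.H43.BZ.surf (k + 2)) * G = (ck k * ∫⁻ x in Ioo (-1 : ℝ) 1,
        ENNReal.ofReal ((1 - x ^ 2) ^ ((((k + 2 : ℕ) : ℝ) - 3) / 2)) * h x) * G := by
      refine Eq.trans h2 ?_
      ring
    exact (ENNReal.mul_left_inj hG0 hG1).1 h7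

end Pool.Agent.H236.BZ.Zon
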